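import Pool.Agent.D0H80.CD.Values

set_option autoImplicit false

/-!
# Centrally symmetric flag homology spheres (for MP_375bfa_co)

`Free H W τ`: `τ` is an involution of the complex on `W` which maps every vertex to a different
non-adjacent one.  If the link of a vertex `x` of a flag homology sphere is centrally symmetric then
two copies of the sphere without the open star of `x`, glued along this link by its symmetry, form a
centrally symmetric flag homology sphere.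
-/

namespace Pool.Agent.D0H84.CD

open Pool.Agent.W497.FS Pool.Agent.D0H80.CD

/-- `τ` is an involution of the complex on `W` which maps every vertex to a different non-adjacent
one -/
structure Free {α : Type} (H : SimpleGraph α) (W : Finset α) (τ : α → α) : Prop where
  mem : ∀ a ∈ W, τ a ∈ W
  inv : ∀ a ∈ W, τ (τ a) = a
  adj : ∀ a ∈ W, ∀ b ∈ W, H.Adj a b → H.Adj (τ a) (τ b)
  ne : ∀ a ∈ W, τ a ≠ a
  nadj : ∀ a ∈ W, ¬ H.Adj a (τ a)

section

variable {ι : Type} {k : ι → Type} [∀ i, Field (k i)]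

/-- the symmetry of the suspension -/
def st {μ : Type} (τ : μ → μ) (p : μ ⊕ₗ Fin 2) : μ ⊕ₗ Fin 2 :=
  Sum.elim (fun a => jl (τ a)) (fun b => jr (1 - b)) (ofLex p)

theorem Free.susp {μ : Type} {M : SimpleGraph μ} {Y : Finset μ} {τ : μ → μ} (hF : Free M Y τ) :
    Free (joinG M (⊥ : SimpleGraph (Fin 2))) (JW Y {0, 1}) (st τ) := by
  have t1 : ∀ b : Fin 2, 1 - b ∈ ({0, 1} : Finset (Fin 2)) := by decide
  have t2 : ∀ b : Fin 2, 1 - (1 - b) = b := by decide
  have t3 : ∀ b : Fin 2, 1 - b ≠ b := by decide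
  refine ⟨?_, ?_, ?_, ?_, ?_⟩
  · intro p hp
    rcases jcases p with ⟨a, rfl⟩ | ⟨b, rfl⟩
    · exact mem_JW_l.2 (hF.mem a (mem_JW_l.1 hp))
    · exact mem_JW_r.2 (t1 b)
  · intro p hp
    rcases jcases p with ⟨a, rfl⟩ | ⟨b, rfl⟩
    · exact congrArg jl (hF.inv a (mem_JW_l.1 hp))
    · exact congrArg jr (t2 b)
  · intro p hp q hq h
    rcases jcases p with ⟨a, rfl⟩ | ⟨b, rfl⟩ <;> rcases jcases q with ⟨a', rfl⟩ | ⟨b', rfl⟩
    · exact jll.2 (hF.adj a (mem_JW_l.1 hp) a' (mem_JW_l.1 hq) (jll.1 h))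
    · exact jladj
    · exact jradj
    · exact absurd (jrr.1 h) (fun h => h)
  · intro p hp
    rcases jcases p with ⟨a, rfl⟩ | ⟨b, rfl⟩
    · exact fun h => hF.ne a (mem_JW_l.1 hp) (jl_inj h)
    · exact fun h => t3 b (jr_inj h)
  · intro p hp
    rcases jcases p with ⟨a, rfl⟩ | ⟨b, rfl⟩
    · exact fun h => hF.nadj a (mem_JW_l.1 hp) (jll.1 h)
    · exact fun h => jrr.1 h

/-- the cross-polytopes -/
theorem cross (e : ℕ) : ∃ (μ : Type) (_ : LinearOrder μ) (_ : Fintype μ) (M : SimpleGraph μ)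
    (Y : Finset μ) (τ : μ → μ), Sp k M e Y ∧ Free M Y τ := by
  induction e with
  | zero =>
    exact ⟨Fin 1, inferInstance, inferInstance, ⊥, ∅, id, ⟨rfl, fun i => HS_empty⟩,
      ⟨fun a ha => absurd ha (Finset.notMem_empty _), fun a ha => absurd ha (Finset.notMem_empty _),
      fun a ha => absurd ha (Finset.notMem_empty _), fun a ha => absurd ha (Finset.notMem_empty _),
      fun a ha => absurd ha (Finset.notMem_empty _)⟩⟩
  | succ e ih =>
    obtain ⟨μ, _, _, M, Y, τ, hS, hF⟩ := ih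
    exact ⟨μ ⊕ₗ Fin 2, inferInstance, inferInstance, _, _, st τ,
      (Sp_join hS (Sp_pair (k := k))).1, hF.susp⟩

/-- transport to the vertices `0, ..., n - 1` -/
theorem to_fin {d : ℕ} {γ : Type} [LinearOrder γ] [Fintype γ] {G : SimpleGraph γ} {V : Finset γ}
    {σ : γ → γ} (hS : Sp k G d V) (hF : Free G V σ) : ∃ (n : ℕ) (K : SimpleGraph (Fin n))
      (Y : Finset (Fin n)) (τ : Fin n → Fin n), Sp k K d Y ∧ Free K Y τ ∧ lam K Y = lam G V := by
  classical
  let e : Fin (Fintype.card γ) ≃o γ := Fintype.orderIsoFinOfCardEq γ rfl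
  let f : γ ↪o Fin (Fintype.card γ) := e.symm.toOrderEmbedding
  let K : SimpleGraph (Fin (Fintype.card γ)) := SimpleGraph.comap (fun i => e i) G
  have hK : ∀ a b, K.Adj (e.symm a) (e.symm b) ↔ G.Adj a b := by
    intro a b
    change G.Adj (e (e.symm a)) (e (e.symm b)) ↔ G.Adj a b
    rw [OrderIso.apply_symm_apply, OrderIso.apply_symm_apply]
  have hc : Cmp f G K V := fun a _ b _ => (hK a b).symm
  have hm : ∀ x, x ∈ V.map f.toEmbedding → ∃ a ∈ V, e.symm a = x := by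
    intro x hx
    obtain ⟨a, ha, rfl⟩ := Finset.mem_map.1 hx
    exact ⟨a, ha, rfl⟩
  have hm' : ∀ a ∈ V, e.symm a ∈ V.map f.toEmbedding := fun a ha =>
    Finset.mem_map_of_mem f.toEmbedding ha
  have ht : ∀ a, e.symm (σ (e (e.symm a))) = e.symm (σ a) := by
    intro a
    rw [OrderIso.apply_symm_apply]
  refine ⟨_, K, V.map f.toEmbedding, fun i => e.symm (σ (e i)),
    ⟨NP_map hc hS.np, fun i => HS_map hc (hS.hs i)⟩, ?_, lam_map hc⟩
  refine ⟨?_, ?_, ?_, ?_, ?_⟩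
  · intro x hx
    obtain ⟨a, ha, rfl⟩ := hm x hx
    rw [ht]
    exact hm' _ (hF.mem a ha)
  · intro x hx
    obtain ⟨a, ha, rfl⟩ := hm x hx
    rw [ht, OrderIso.apply_symm_apply, hF.inv a ha]
  · intro x hx y hy h
    obtain ⟨a, ha, rfl⟩ := hm x hx
    obtain ⟨b, hb, rfl⟩ := hm y hy
    rw [ht, ht, hK]
    exact hF.adj a ha b hb ((hK a b).1 h)
  · intro x hx
    obtain ⟨a, ha, rfl⟩ := hm x hx
    rw [ht]
    exact fun h => hF.ne a ha (e.symm.injective h)
  · intro x hx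
    obtain ⟨a, ha, rfl⟩ := hm x hx
    rw [ht, hK]
    exact hF.nadj a ha

/-- doubling along a centrally symmetric link -/
theorem double {d : ℕ} {α μ : Type} [LinearOrder α] [Fintype α] {H : SimpleGraph α}
    {W : Finset α} {x : α} {M : SimpleGraph μ} {Y : Finset μ} {τ : μ → μ} (hS : Sp k H d W)
    (hx : x ∈ W) (hl : LI H W x M Y) (hF : Free M Y τ) :
    ∃ (γ : Type) (_ : LinearOrder γ) (_ : Fintype γ) (G : SimpleGraph γ) (V : Finset γ)
      (σ : γ → γ), Sp k G d V ∧ Free G V σ ∧ lam G V = lam H W + lam H W := by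
  classical
  obtain ⟨g, g1, g2, g3, g4⟩ := hl
  let φ : α → α := fun b => if hb : ∃ m ∈ Y, g m = b then g (τ hb.choose) else x
  have hφ : ∀ m ∈ Y, φ (g m) = g (τ m) := by
    intro m hm
    have hex : ∃ m' ∈ Y, g m' = g m := ⟨m, hm, rfl⟩
    have h1 : φ (g m) = g (τ hex.choose) := dif_pos hex
    rw [h1, g2 _ hex.choose_spec.1 m hm hex.choose_spec.2]
  have p1 : ∀ b ∈ lk H W x, φ b ∈ lk H W x := by
    intro b hb
    obtain ⟨m, hm, rfl⟩ := g3 b hb
    rw [hφ m hm]; exact g1 _ (hF.mem m hm)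
  have p2 : ∀ b ∈ lk H W x, φ (φ b) = b := by
    intro b hb
    obtain ⟨m, hm, rfl⟩ := g3 b hb
    rw [hφ m hm, hφ _ (hF.mem m hm), hF.inv m hm]
  have p3 : ∀ b ∈ lk H W x, φ b ≠ b := by
    intro b hb
    obtain ⟨m, hm, rfl⟩ := g3 b hb
    rw [hφ m hm]
    exact fun h => hF.ne m hm (g2 _ (hF.mem m hm) m hm h)
  have p4 : ∀ b ∈ lk H W x, ¬ H.Adj b (φ b) := by
    intro b hb
    obtain ⟨m, hm, rfl⟩ := g3 b hb
    rw [hφ m hm, ← g4 m hm _ (hF.mem m hm)]
    exact hF.nadj m hm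
  have p5 : ∀ b ∈ lk H W x, ∀ b' ∈ lk H W x, (H.Adj b b' ↔ H.Adj (φ b) (φ b')) := by
    intro b hb b' hb'
    obtain ⟨m, hm, rfl⟩ := g3 b hb
    obtain ⟨m', hm', rfl⟩ := g3 b' hb'
    rw [hφ m hm, hφ m' hm', ← g4 m hm m' hm', ← g4 _ (hF.mem m hm) _ (hF.mem m' hm')]
    refine ⟨hF.adj m hm m' hm', fun h => ?_⟩
    have := hF.adj _ (hF.mem m hm) _ (hF.mem m' hm') h
    rwa [hF.inv m hm, hF.inv m' hm'] at this
  obtain ⟨γ, oγ, fγ, G, i, j, c1, c2, hG, hSp, hlam, hji, hij⟩ := glue_abs (φ := φ) hS hS hx hx p1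
    (fun b hb b' hb' he => by rw [← p2 b hb, he, p2 b' hb'])
    (fun a ha => ⟨φ a, p1 a ha, p2 a ha⟩) p5
  -- the symmetry
  let σ : γ → γ := fun p => if h : ∃ a ∈ W, a ≠ x ∧ i a = p then j h.choose else
    if h : ∃ b ∈ W, b ≠ x ∧ j b = p then i h.choose else p
  have hsi : ∀ a ∈ W, a ≠ x → σ (i a) = j a := by
    intro a ha hax
    have hex : ∃ a' ∈ W, a' ≠ x ∧ i a' = i a := ⟨a, ha, hax, rfl⟩
    have h1 : σ (i a) = j hex.choose := dif_pos hex
    rw [h1, i.injective hex.choose_spec.2.2]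
  have hsj : ∀ b ∈ W, b ≠ x → σ (j b) = i b := by
    intro b hb hbx
    by_cases hex : ∃ a ∈ W, a ≠ x ∧ i a = j b
    · obtain ⟨a, ha, hax, hab⟩ := hex
      obtain ⟨q1, q2⟩ := hij a b hab
      rw [← hab, hsi a ha hax, q2, hji _ (p1 b q1), p2 b q1]
    · have hex2 : ∃ b' ∈ W, b' ≠ x ∧ j b' = j b := ⟨b, hb, hbx, rfl⟩
      have h1 : σ (j b) = i hex2.choose := by
        simp only [σ]
        rw [dif_neg hex, dif_pos hex2]
      rw [h1, j.injective hex2.choose_spec.2.2]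
  have m1 : ∀ p, p ∈ (W.map i).erase (i x) ↔ ∃ a ∈ W, a ≠ x ∧ i a = p := by
    intro p
    rw [Finset.mem_erase, Finset.mem_map]
    constructor
    · rintro ⟨h1, a, ha, rfl⟩
      exact ⟨a, ha, fun h => h1 (by rw [h]), rfl⟩
    · rintro ⟨a, ha, hax, rfl⟩
      exact ⟨fun h => hax (i.injective h), a, ha, rfl⟩
  have m2 : ∀ p, p ∈ (W.map j).erase (j x) ↔ ∃ a ∈ W, a ≠ x ∧ j a = p := by
    intro p
    rw [Finset.mem_erase, Finset.mem_map]
    constructor
    · rintro ⟨h1, a, ha, rfl⟩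
      exact ⟨a, ha, fun h => h1 (by rw [h]), rfl⟩
    · rintro ⟨a, ha, hax, rfl⟩
      exact ⟨fun h => hax (j.injective h), a, ha, rfl⟩
  have hne1 : ∀ a, i a ≠ j a := by
    intro a h
    obtain ⟨q1, q2⟩ := hij a a h
    exact p3 a q1 q2.symm
  have hnadj1 : ∀ a ∈ W, a ≠ x → ¬ (glueG G ((W.map i).erase (i x)) ((W.map j).erase (j x))).Adj
      (i a) (j a) := by
    intro a ha hax h
    rw [glueG_adj] at h
    obtain ⟨h0, h | h⟩ := h
    · obtain ⟨c, hc, hcx, hca⟩ := (m1 _).1 h.2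
      obtain ⟨q1, q2⟩ := hij c a hca
      rw [← hca, ← c1 a ha c hc, q2] at h0
      exact p4 a q1 h0
    · obtain ⟨c, hc, hcx, hca⟩ := (m2 _).1 h.1
      obtain ⟨q1, q2⟩ := hij a c hca.symm
      rw [← hca, ← c2 c hc a ha, q2] at h0
      exact p4 c q1 h0
  refine ⟨γ, oγ, fγ, _, _, σ, hSp, ⟨?_, ?_, ?_, ?_, ?_⟩, hlam⟩
  · intro p hp
    rcases Finset.mem_union.1 hp with h | h
    · obtain ⟨a, ha, hax, rfl⟩ := (m1 p).1 h
      rw [hsi a ha hax]
      exact Finset.mem_union_right _ ((m2 _).2 ⟨a, ha, hax, rfl⟩)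
    · obtain ⟨a, ha, hax, rfl⟩ := (m2 p).1 h
      rw [hsj a ha hax]
      exact Finset.mem_union_left _ ((m1 _).2 ⟨a, ha, hax, rfl⟩)
  · intro p hp
    rcases Finset.mem_union.1 hp with h | h
    · obtain ⟨a, ha, hax, rfl⟩ := (m1 p).1 h
      rw [hsi a ha hax, hsj a ha hax]
    · obtain ⟨a, ha, hax, rfl⟩ := (m2 p).1 h
      rw [hsj a ha hax, hsi a ha hax]
  · intro p _ q _ h
    rw [glueG_adj] at h ⊢
    obtain ⟨h0, h | h⟩ := h
    · obtain ⟨a, ha, hax, rfl⟩ := (m1 p).1 h.1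
      obtain ⟨b, hb, hbx, rfl⟩ := (m1 q).1 h.2
      rw [hsi a ha hax, hsi b hb hbx, ← c2 a ha b hb]
      exact ⟨(c1 a ha b hb).2 h0, Or.inr ⟨(m2 _).2 ⟨a, ha, hax, rfl⟩, (m2 _).2 ⟨b, hb, hbx, rfl⟩⟩⟩
    · obtain ⟨a, ha, hax, rfl⟩ := (m2 p).1 h.1
      obtain ⟨b, hb, hbx, rfl⟩ := (m2 q).1 h.2
      rw [hsj a ha hax, hsj b hb hbx, ← c1 a ha b hb]
      exact ⟨(c2 a ha b hb).2 h0, Or.inl ⟨(m1 _).2 ⟨a, ha, hax, rfl⟩, (m1 _).2 ⟨b, hb, hbx, rfl⟩⟩⟩
  · intro p hp
    rcases Finset.mem_union.1 hp with h | h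
    · obtain ⟨a, ha, hax, rfl⟩ := (m1 p).1 h
      rw [hsi a ha hax]
      exact (hne1 a).symm
    · obtain ⟨a, ha, hax, rfl⟩ := (m2 p).1 h
      rw [hsj a ha hax]
      exact hne1 a
  · intro p hp
    rcases Finset.mem_union.1 hp with h | h
    · obtain ⟨a, ha, hax, rfl⟩ := (m1 p).1 h
      rw [hsi a ha hax]
      exact hnadj1 a ha hax
    · obtain ⟨a, ha, hax, rfl⟩ := (m2 p).1 h
      rw [hsj a ha hax]
      exact fun h => hnadj1 a ha hax h.symm

/-- `T` is centrally symmetric: it has an involution which maps no nonempty face to itself -/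
def Central {N : ℕ} (T : Finset (Finset (Fin N))) : Prop :=
  ∃ σ : Fin N → Fin N, (∀ v, {v} ∈ T → σ (σ v) = v) ∧ ∀ F ∈ T, F.image σ ∈ T ∧
    (F.Nonempty → F.image σ ≠ F)

theorem central_of {n : ℕ} {K : SimpleGraph (Fin n)} {Y : Finset (Fin n)} {τ : Fin n → Fin n}
    (h : Free K Y τ) : Central (cl K Y) := by
  refine ⟨τ, fun v hv => h.inv v ((mem_cl.1 hv).1 (Finset.mem_singleton_self v)), fun F hF => ?_⟩
  obtain ⟨h1, h2⟩ := mem_cl.1 hF
  refine ⟨mem_cl.2 ⟨fun y hy => ?_, fun y hy z hz hyz => ?_⟩, fun hne he => ?_⟩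
  · obtain ⟨a, ha, rfl⟩ := Finset.mem_image.1 hy
    exact h.mem a (h1 ha)
  · obtain ⟨a, ha, rfl⟩ := Finset.mem_image.1 hy
    obtain ⟨b, hb, rfl⟩ := Finset.mem_image.1 hz
    exact h.adj a (h1 ha) b (h1 hb) (h2 a ha b hb (fun he => hyz (by rw [he])))
  · obtain ⟨a, ha⟩ := hne
    have h3 : τ a ∈ F := by
      rw [← he]; exact Finset.mem_image_of_mem _ ha
    exact h.nadj a (h1 ha) (h2 a ha _ h3 (h.ne a (h1 ha)).symm)

/-- a centrally symmetric sphere with twice the value of a sphere with the link `M` -/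
theorem central_sphere {d : ℕ} {μ : Type} {M : SimpleGraph μ} {Y : Finset μ}
    {τ : μ → μ} (hF : Free M Y τ) {l : ℚ} (h : RS k d M Y l) :
    ∃ (N : ℕ) (T : Finset (Finset (Fin N))), (∀ i, IsFlagSphere (k i) d T) ∧ Central T ∧
      omega T = l + l := by
  obtain ⟨α, _, _, H, W, x, hS, hx, hli, rfl⟩ := h
  obtain ⟨γ, _, _, G, V, σ, h1, h2, h3⟩ := double hS hx hli hF
  obtain ⟨N, K, Z, ρ, h4, h5, h6⟩ := to_fin h1 h2
  exact ⟨N, cl K Z, fun i => isFlagSphere_of h4.np (h4.hs i), central_of h5, by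
    rw [omega_cl, h6, h3]⟩

/-- the cross-polytopes on the vertices `0, ..., n - 1` -/
theorem cross_fin (e : ℕ) : ∃ (n : ℕ) (M : SimpleGraph (Fin n)) (Y : Finset (Fin n))
    (τ : Fin n → Fin n), Sp k M e Y ∧ Free M Y τ := by
  obtain ⟨μ, _, _, M, Y, τ, h1, h2⟩ := cross (k := k) e
  obtain ⟨n, K, Z, ρ, h3, h4, -⟩ := to_fin h1 h2
  exact ⟨n, K, Z, ρ, h3, h4⟩

/-- subdividing an edge of the suspension, with the value -/
theorem U_exact {μ : Type} [LinearOrder μ] [Fintype μ] {M : SimpleGraph μ} {Y : Finset μ} {e : ℕ}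
    (hS : Sp k M (e + 1) Y) {z : μ} (hz : z ∈ Y) :
    BS k (e + 2) M Y (joinG M (⊥ : SimpleGraph (Fin 2))) (JW (lk M Y z) {0, 1})
      (-lam M (lk M Y z) / 4) := by
  classical
  have hlA := (Sp_join hS (Sp_pair (k := k))).2
  have hlB := (Sp_join (hS.lk hz) (Sp_pentagon (k := k))).2
  have hA := (Sp_join hS (Sp_pair (k := k))).1
  have hB := (Sp_join (hS.lk hz) (Sp_pentagon (k := k))).1
  set A : SimpleGraph (μ ⊕ₗ Fin 2) := joinG M ⊥ with hAdef
  set B : SimpleGraph (μ ⊕ₗ Fin 5) := joinG M pent with hBdef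
  set D := lk M Y z with hD
  have p0 : lk pent (Finset.univ : Finset (Fin 5)) 0 = {4, 1} := by rw [lk_pent]; decide
  have p2 : lk pent (Finset.univ : Finset (Fin 5)) 2 = {1, 3} := by rw [lk_pent]; decide
  have lA : lk A (JW Y {0, 1}) (jl z) = JW D {0, 1} := lk_jl
  have lB : lk B (JW D Finset.univ) (jr 0) = JW D {4, 1} := by rw [← p0]; exact lk_jr
  have lB2 : lk B (JW D Finset.univ) (jr 2) = JW D {1, 3} := by rw [← p2]; exact lk_jr
  let t0 : Fin 5 → Fin 2 := fun t => if t = 4 then 0 else 1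
  let φ : μ ⊕ₗ Fin 5 → μ ⊕ₗ Fin 2 := fun p => match ofLex p with
    | Sum.inl m => jl m
    | Sum.inr t => jr (t0 t)
  have φl : ∀ m, φ (jl m) = jl m := fun m => rfl
  have φr : ∀ t, φ (jr t) = jr (t0 t) := fun t => rfl
  have tt : ∀ t ∈ ({4, 1} : Finset (Fin 5)), t0 t ∈ ({0, 1} : Finset (Fin 2)) := by decide
  have ti : ∀ t ∈ ({4, 1} : Finset (Fin 5)), ∀ t' ∈ ({4, 1} : Finset (Fin 5)), t0 t = t0 t' →
    t = t' := by decide
  have ts : ∀ s ∈ ({0, 1} : Finset (Fin 2)), ∃ t ∈ ({4, 1} : Finset (Fin 5)), t0 t = s := by decide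
  have ta : ∀ t ∈ ({4, 1} : Finset (Fin 5)), ∀ t' ∈ ({4, 1} : Finset (Fin 5)),
    ¬ pent.Adj t t' := by decide
  obtain ⟨γ, oγ, fγ, G, i, j, c1, c2, hG, hSp, hlam, hji, hij⟩ := glue_abs (φ := φ)
    (v := (jl z : μ ⊕ₗ Fin 2)) (u := (jr 0 : μ ⊕ₗ Fin 5)) hA hB (mem_JW_l.2 hz)
    (mem_JW_r.2 (Finset.mem_univ _))
    (by
      intro b hb
      rw [lB] at hb
      rw [lA]
      rcases jcases b with ⟨m, rfl⟩ | ⟨t, rfl⟩
      · rw [φl, mem_JW_l]; exact mem_JW_l.1 hb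
      · rw [φr, mem_JW_r]; exact tt t (mem_JW_r.1 hb))
    (by
      intro b hb b' hb' he
      rw [lB] at hb hb'
      rcases jcases b with ⟨m, rfl⟩ | ⟨t, rfl⟩ <;> rcases jcases b' with ⟨m', rfl⟩ | ⟨t', rfl⟩
      · rw [jl_inj he]
      · exact absurd he jlr
      · exact absurd he.symm jlr
      · rw [ti t (mem_JW_r.1 hb) t' (mem_JW_r.1 hb') (jr_inj he)])
    (by
      intro a ha
      rw [lA] at ha
      rw [lB]
      rcases jcases a with ⟨m, rfl⟩ | ⟨s, rfl⟩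
      · exact ⟨jl m, mem_JW_l.2 (mem_JW_l.1 ha), rfl⟩
      · obtain ⟨t, ht, rfl⟩ := ts s (mem_JW_r.1 ha)
        exact ⟨jr t, mem_JW_r.2 ht, rfl⟩)
    (by
      intro b hb b' hb'
      rw [lB] at hb hb'
      rcases jcases b with ⟨m, rfl⟩ | ⟨t, rfl⟩ <;> rcases jcases b' with ⟨m', rfl⟩ | ⟨t', rfl⟩
      · exact Iff.rfl
      · exact Iff.rfl
      · exact Iff.rfl
      · constructor
        · intro h; exact absurd h (ta t (mem_JW_r.1 hb) t' (mem_JW_r.1 hb'))
        · intro h; exact absurd h (fun h => h))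
  -- the second vertex
  have L2 : LI B (JW D Finset.univ) (jr 2) A (JW D {0, 1}) := by
    let s0 : Fin 2 → Fin 5 := fun s => if s = 0 then 1 else 3
    let g : μ ⊕ₗ Fin 2 → μ ⊕ₗ Fin 5 := fun p => match ofLex p with
      | Sum.inl m => jl m
      | Sum.inr s => jr (s0 s)
    have gl : ∀ m, g (jl m) = jl m := fun m => rfl
    have gr : ∀ s, g (jr s) = jr (s0 s) := fun s => rfl
    have q1 : ∀ s ∈ ({0, 1} : Finset (Fin 2)), s0 s ∈ ({1, 3} : Finset (Fin 5)) := by decide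
    have q2 : ∀ s ∈ ({0, 1} : Finset (Fin 2)), ∀ s' ∈ ({0, 1} : Finset (Fin 2)), s0 s = s0 s' →
      s = s' := by decide
    have q3 : ∀ t ∈ ({1, 3} : Finset (Fin 5)), ∃ s ∈ ({0, 1} : Finset (Fin 2)), s0 s = t := by
      decide
    have q4 : ∀ s ∈ ({0, 1} : Finset (Fin 2)), ∀ s' ∈ ({0, 1} : Finset (Fin 2)),
      ¬ pent.Adj (s0 s) (s0 s') := by decide
    refine ⟨g, ?_, ?_, ?_, ?_⟩
    · intro b hb
      rw [lB2]
      rcases jcases b with ⟨m, rfl⟩ | ⟨t, rfl⟩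
      · rw [gl, mem_JW_l]; exact mem_JW_l.1 hb
      · rw [gr, mem_JW_r]; exact q1 t (mem_JW_r.1 hb)
    · intro b hb b' hb' he
      rcases jcases b with ⟨m, rfl⟩ | ⟨t, rfl⟩ <;> rcases jcases b' with ⟨m', rfl⟩ | ⟨t', rfl⟩
      · rw [jl_inj he]
      · exact absurd he jlr
      · exact absurd he.symm jlr
      · rw [q2 t (mem_JW_r.1 hb) t' (mem_JW_r.1 hb') (jr_inj he)]
    · intro a ha
      rw [lB2] at ha
      rcases jcases a with ⟨m, rfl⟩ | ⟨s, rfl⟩
      · exact ⟨jl m, mem_JW_l.2 (mem_JW_l.1 ha), rfl⟩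
      · obtain ⟨t, ht, rfl⟩ := q3 s (mem_JW_r.1 ha)
        exact ⟨jr t, mem_JW_r.2 ht, rfl⟩
    · intro b hb b' hb'
      rcases jcases b with ⟨m, rfl⟩ | ⟨t, rfl⟩ <;> rcases jcases b' with ⟨m', rfl⟩ | ⟨t', rfl⟩
      · exact Iff.rfl
      · exact Iff.rfl
      · exact Iff.rfl
      · constructor
        · intro h; exact absurd h (fun h => h)
        · intro h; exact absurd h (q4 t (mem_JW_r.1 hb) t' (mem_JW_r.1 hb'))
  have n20 : ¬ pent.Adj 2 0 := by decide
  have n03 : ¬ pent.Adj 0 3 := by decide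
  have n42 : ¬ pent.Adj 4 2 := by decide
  have a43 : pent.Adj 4 3 := by decide
  obtain ⟨b1, b2, b3⟩ := LI_glue c2 hG.symm (mem_JW_r.2 (Finset.mem_univ _))
    (x := (jr 2 : μ ⊕ₗ Fin 5)) (mem_JW_r.2 (Finset.mem_univ _))
    (fun h => absurd (jr_inj h) (by decide)) n20 L2
  rw [glueG_comm, Finset.union_comm] at b3
  -- the first vertex
  set X₁ := ((JW Y {0, 1}).map i).erase (i (jl z)) with hX₁
  set X₂ := ((JW D Finset.univ).map j).erase (j (jr 0)) with hX₂
  have m4 : (jr 4 : μ ⊕ₗ Fin 5) ∈ lk B (JW D Finset.univ) (jr 0) := by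
    rw [lB, mem_JW_r]; decide
  have hx : j (jr 4) = i (jr 0) := hji _ m4
  have x1 : i (jr 0) ∈ X₁ := Finset.mem_erase.2 ⟨fun h => jlr (i.injective h).symm,
    Finset.mem_map_of_mem _ (mem_JW_r.2 (Finset.mem_insert_self _ _))⟩
  have x2 : i (jr 0) ∈ X₂ := by
    rw [← hx]
    exact Finset.mem_erase.2 ⟨fun h => absurd (jr_inj (j.injective h)) (by decide),
      Finset.mem_map_of_mem _ (mem_JW_r.2 (Finset.mem_univ _))⟩
  have r3 : j (jr 3) ∈ X₂ := Finset.mem_erase.2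
    ⟨fun h => absurd (jr_inj (j.injective h)) (by decide),
      Finset.mem_map_of_mem _ (mem_JW_r.2 (Finset.mem_univ _))⟩
  have r3' : j (jr 3) ∉ X₁ := by
    intro h
    obtain ⟨a, -, ha⟩ := Finset.mem_map.1 (Finset.mem_of_mem_erase h)
    have h1 := (hij a _ ha).1
    rw [lB, mem_JW_r] at h1
    exact absurd h1 (by decide)
  have y1 : ∀ y ∈ Y, y ≠ z → i (jl y) ∈ X₁ := fun y hy hyz =>
    Finset.mem_erase.2 ⟨fun h => hyz (jl_inj (i.injective h)),
      Finset.mem_map_of_mem _ (mem_JW_l.2 hy)⟩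
  have y2 : ∀ y ∈ D, j (jl y) = i (jl y) := fun y hy => hji _ (by rw [lB]; exact mem_JW_l.2 hy)
  have y3 : ∀ y ∈ D, i (jl y) ∈ X₂ := fun y hy => by
    rw [← y2 y hy]
    exact Finset.mem_erase.2 ⟨fun h => jlr (j.injective h),
      Finset.mem_map_of_mem _ (mem_JW_l.2 hy)⟩
  have y4 : ∀ y, i (jl y) ∈ X₂ → y ∈ D := by
    intro y h
    obtain ⟨b, -, hb⟩ := Finset.mem_map.1 (Finset.mem_of_mem_erase h)
    obtain ⟨h1, h2⟩ := hij _ _ hb.symm
    rw [lB] at h1
    rcases jcases b with ⟨m, rfl⟩ | ⟨t, rfl⟩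
    · rw [φl] at h2
      rw [jl_inj h2]
      exact mem_JW_l.1 h1
    · rw [φr] at h2
      exact absurd h2 jlr
  have e1 : lk (glueG G X₁ X₂) (X₁ ∪ X₂) (i (jr 0)) = lk G X₁ (i (jr 0)) ∪ lk G X₂ (i (jr 0)) :=
    lk_glue_both x1 x2
  have key : ∀ y ∈ Y, y ≠ z → (M.Adj z y ↔ (glueG G X₁ X₂).Adj (j (jr 3)) (i (jl y))) := by
    intro y hy hyz
    constructor
    · intro h
      have hyD : y ∈ D := mem_lk.2 ⟨hy, h⟩
      refine ⟨?_, Or.inr ⟨r3, y3 y hyD⟩⟩
      rw [← y2 y hyD]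
      exact (c2 _ (mem_JW_r.2 (Finset.mem_univ _)) _ (mem_JW_l.2 hyD)).1 jradj
    · rintro ⟨-, h | h⟩
      · exact absurd h.1 r3'
      · exact (mem_lk.1 (y4 y h.2)).2
  have L1 : LI (glueG G X₁ X₂) (X₁ ∪ X₂) (i (jr 0)) M Y := by
    let g : μ → γ := fun y => if y = z then j (jr 3) else i (jl y)
    have gz : g z = j (jr 3) := if_pos rfl
    have gn : ∀ y, y ≠ z → g y = i (jl y) := fun y h => if_neg h
    refine ⟨g, ?_, ?_, ?_, ?_⟩
    · intro y hy
      rw [e1, Finset.mem_union]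
      by_cases h : y = z
      · right
        rw [h, gz, mem_lk]
        refine ⟨r3, ?_⟩
        rw [← hx]
        exact (c2 _ (mem_JW_r.2 (Finset.mem_univ _)) _ (mem_JW_r.2 (Finset.mem_univ _))).1 a43
      · left
        rw [gn y h, mem_lk]
        exact ⟨y1 y hy h, (c1 _ (mem_JW_r.2 (Finset.mem_insert_self _ _)) _ (mem_JW_l.2 hy)).1
          jradj⟩
    · intro y hy y' hy' he
      by_cases h : y = z <;> by_cases h' : y' = z
      · rw [h, h']
      · rw [h, gz, gn y' h'] at he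
        have := y1 y' hy' h'
        rw [← he] at this
        exact absurd this r3'
      · rw [h', gz, gn y h] at he
        have := y1 y hy h
        rw [he] at this
        exact absurd this r3'
      · rw [gn y h, gn y' h'] at he
        exact jl_inj (i.injective he)
    · intro p hp
      rw [e1, Finset.mem_union] at hp
      rcases hp with hp | hp
      · obtain ⟨h1, h2⟩ := mem_lk.1 hp
        obtain ⟨h3, h4⟩ := Finset.mem_erase.1 h1
        obtain ⟨q, hq, rfl⟩ := Finset.mem_map.1 h4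
        have h5 := (c1 _ (mem_JW_r.2 (Finset.mem_insert_self _ _)) _ hq).2 h2
        rcases jcases q with ⟨y, rfl⟩ | ⟨s, rfl⟩
        · have hyz : y ≠ z := fun h => h3 (by rw [h])
          exact ⟨y, mem_JW_l.1 hq, gn y hyz⟩
        · exact absurd h5 (fun h => h)
      · obtain ⟨h1, h2⟩ := mem_lk.1 hp
        obtain ⟨h3, h4⟩ := Finset.mem_erase.1 h1
        obtain ⟨q, hq, rfl⟩ := Finset.mem_map.1 h4
        rw [← hx] at h2
        have h5 := (c2 _ (mem_JW_r.2 (Finset.mem_univ _)) _ hq).2 h2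
        rcases jcases q with ⟨y, rfl⟩ | ⟨t, rfl⟩
        · have hyD : y ∈ D := mem_JW_l.1 hq
          have hyz : y ≠ z := fun h => not_mem_lk_self (h ▸ hyD)
          refine ⟨y, lk_subset hyD, ?_⟩
          rw [gn y hyz]
          exact (y2 y hyD).symm
        · have h6 : pent.Adj 4 t := h5
          have h7 : t ≠ 0 := fun h => h3 (by rw [h])
          have h8 : ∀ t : Fin 5, pent.Adj 4 t → t ≠ 0 → t = 3 := by decide
          rw [h8 t h6 h7]
          exact ⟨z, hz, gz⟩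
    · intro y hy y' hy'
      by_cases h : y = z <;> by_cases h' : y' = z
      · rw [h, h']
        exact ⟨fun hh => absurd hh M.irrefl, fun hh => absurd hh (SimpleGraph.irrefl _)⟩
      · rw [h, gz, gn y' h']
        exact key y' hy' h'
      · rw [h', gz, gn y h, SimpleGraph.adj_comm, SimpleGraph.adj_comm _ (i (jl y))]
        exact key y hy h
      · rw [gn y h, gn y' h']
        constructor
        · intro hh
          exact ⟨(c1 _ (mem_JW_l.2 hy) _ (mem_JW_l.2 hy')).1 hh, Or.inl ⟨y1 y hy h, y1 y' hy' h'⟩⟩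
        · rintro ⟨hh, -⟩
          exact (c1 _ (mem_JW_l.2 hy) _ (mem_JW_l.2 hy')).2 hh
  have hval : lam (glueG G X₁ X₂) (X₁ ∪ X₂) = -lam M D / 4 := by
    rw [hlam, hlA, hlB, lam_pent,
      lam_pair (show (0 : Fin 2) ≠ 1 by decide) (fun h => h)]
    ring
  refine ⟨γ, oγ, fγ, _, _, i (jr 0), j (jr 2), hSp, Finset.mem_union_left _ x1,
    Finset.mem_union_right _ b1, ?_, ?_, L1, b3, hval⟩
  · intro h
    rw [← h] at b2
    exact b2 x1
  · rintro ⟨h, -⟩
    rw [← hx] at h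
    exact n42 ((c2 _ (mem_JW_r.2 (Finset.mem_univ _)) _ (mem_JW_r.2 (Finset.mem_univ _))).2 h)

/-- from any link to the suspension of any sphere -/
theorem to_susp {μ ν : Type} [LinearOrder μ] [Fintype μ] [LinearOrder ν] [Fintype ν]
    {M : SimpleGraph μ} {Y : Finset μ} {C : SimpleGraph ν} {Z : Finset ν} {e : ℕ}
    (hS : Sp k M (e + 1) Y) {z : μ} (hz : z ∈ Y) (hC : Sp k C e Z) :
    BS k (e + 2) M Y (joinG C (⊥ : SimpleGraph (Fin 2))) (JW Z {0, 1})
      (-lam M (lk M Y z) / 4) := by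
  obtain ⟨c, hc⟩ := conv e (hS.lk hz) hC
  have h1 := hc.join (Sp_pair (k := k))
  rw [lam_pair (show (0 : Fin 2) ≠ 1 by decide) (fun h => h), mul_zero] at h1
  have h2 := (U_exact hS hz).comp h1
  rw [add_zero] at h2
  exact h2

theorem LI_pair {α ν : Type} [DecidableEq (ν ⊕ₗ Fin 2)] {H : SimpleGraph α} {W : Finset α}
    {x a b : α} (hab : a ≠ b) (hn : ¬ H.Adj a b) (hl : ∀ y, y ∈ lk H W x ↔ y = a ∨ y = b)
    {C : SimpleGraph ν} : LI H W x (joinG C (⊥ : SimpleGraph (Fin 2))) (JW ∅ {0, 1}) := by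
  have h01 : (jr 0 : ν ⊕ₗ Fin 2) ≠ jr 1 := fun h => absurd (jr_inj h) (by decide)
  have hy : ∀ y : ν ⊕ₗ Fin 2, y ∈ (JW ∅ {0, 1} : Finset (ν ⊕ₗ Fin 2)) → y = jr 0 ∨ y = jr 1 := by
    intro y hy
    rcases jcases y with ⟨m, rfl⟩ | ⟨s, rfl⟩
    · exact absurd (mem_JW_l.1 hy) (Finset.notMem_empty _)
    · have h2 : ∀ s : Fin 2, s = 0 ∨ s = 1 := by decide
      rcases h2 s with rfl | rfl
      · exact Or.inl rfl
      · exact Or.inr rfl
  have m0 : (jr 0 : ν ⊕ₗ Fin 2) ∈ (JW ∅ {0, 1} : Finset (ν ⊕ₗ Fin 2)) := mem_JW_r.2 (by decide)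
  have m1 : (jr 1 : ν ⊕ₗ Fin 2) ∈ (JW ∅ {0, 1} : Finset (ν ⊕ₗ Fin 2)) := mem_JW_r.2 (by decide)
  let g : ν ⊕ₗ Fin 2 → α := fun p => if p = jr 0 then a else b
  have g0 : g (jr 0) = a := if_pos rfl
  have g1 : g (jr 1) = b := if_neg h01.symm
  refine ⟨g, ?_, ?_, ?_, ?_⟩
  · intro y h
    rcases hy y h with rfl | rfl
    · rw [g0]; exact (hl a).2 (Or.inl rfl)
    · rw [g1]; exact (hl b).2 (Or.inr rfl)
  · intro y h y' h' he
    rcases hy y h with rfl | rfl <;> rcases hy y' h' with rfl | rfl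
    · rfl
    · rw [g0, g1] at he; exact absurd he hab
    · rw [g0, g1] at he; exact absurd he.symm hab
    · rfl
  · intro y h
    rcases (hl y).1 h with rfl | rfl
    · exact ⟨_, m0, g0⟩
    · exact ⟨_, m1, g1⟩
  · intro y h y' h'
    have h3 : ¬ (joinG C (⊥ : SimpleGraph (Fin 2))).Adj y y' := by
      rcases hy y h with rfl | rfl <;> rcases hy y' h' with rfl | rfl <;> exact fun h => jrr.1 h
    have h4 : ¬ H.Adj (g y) (g y') := by
      rcases hy y h with rfl | rfl <;> rcases hy y' h' with rfl | rfl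
      · exact SimpleGraph.irrefl _
      · rw [g0, g1]; exact hn
      · rw [g0, g1]; exact fun h => hn h.symm
      · exact SimpleGraph.irrefl _
    exact ⟨fun h => absurd h h3, fun h => absurd h h4⟩

/-- a sphere with value one and a vertex whose link is the suspension of a given sphere -/
theorem one_susp {m : ℕ} {ν : Type} [LinearOrder ν] [Fintype ν] {C : SimpleGraph ν}
    {Z : Finset ν} (hC : Sp k C (2 * m) Z) : ∃ (μ : Type) (M : SimpleGraph μ) (Y : Finset μ),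
      BS k (2 * (m + 1)) (joinG C (⊥ : SimpleGraph (Fin 2))) (JW Z {0, 1}) M Y
        ((-1 / 4) ^ (m + 1)) := by
  classical
  have n02 : ¬ pent.Adj 0 2 := by decide
  have n41 : ¬ pent.Adj 4 1 := by decide
  have p0 : lk pent (Finset.univ : Finset (Fin 5)) 0 = {4, 1} := by rw [lk_pent]; decide
  rcases m with _ | m
  · have h0 : Z = ∅ := hC.np
    subst h0
    refine ⟨Fin 5, pent, _, Fin 5, inferInstance, inferInstance, pent, Finset.univ, 0, 2,
      Sp_pentagon, Finset.mem_univ _, Finset.mem_univ _, by decide, n02, ?_, LI.refl, ?_⟩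
    · refine LI_pair (show (4 : Fin 5) ≠ 1 by decide) n41 ?_
      intro y
      rw [p0, Finset.mem_insert, Finset.mem_singleton]
    · rw [lam_pent]; norm_num
  · obtain ⟨α, _, _, H, W, hS, hl⟩ := pents (k := k) (m + 1)
    obtain ⟨s1, s2⟩ := Sp_join hS (Sp_pentagon (k := k))
    obtain ⟨w, hw⟩ : W.Nonempty := by
      have he : 2 * (m + 1) = (2 * m + 1) + 1 := by ring
      have h1 := hS.np
      rw [he] at h1
      exact h1.nonempty
    have l0 : lk (joinG H pent) (JW W Finset.univ) (jr 0) = JW W {4, 1} := by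
      rw [← p0]; exact lk_jr
    have hL : Sp k (joinG H pent) (2 * (m + 1) + 1) (JW W {4, 1}) := by
      rw [← l0]
      exact Sp.lk s1 (mem_JW_r.2 (Finset.mem_univ _))
    have hz : (jl w : α ⊕ₗ Fin 5) ∈ JW W ({4, 1} : Finset (Fin 5)) := mem_JW_l.2 hw
    have hzero : lam (joinG H pent) (lk (joinG H pent) (JW W {4, 1}) (jl w)) = 0 := by
      have he : 2 * (m + 1) = (2 * m + 1) + 1 := by ring
      rw [he] at hS
      have h1 := (Sp_join (hS.lk hw)
        (Sp.lk (Sp_pentagon (k := k)) (Finset.mem_univ (0 : Fin 5)))).2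
      rw [p0, lam_pair (show (4 : Fin 5) ≠ 1 by decide) n41, mul_zero] at h1
      rw [lk_jl]
      exact h1
    have h2 := to_susp hL hz hC
    rw [hzero, neg_zero, zero_div] at h2
    have h3 : BS k (2 * (m + 1 + 1)) (joinG H pent) (JW W {4, 1}) (joinG H pent)
        (lk (joinG H pent) (JW W Finset.univ) (jr 2)) ((-1 / 4) ^ (m + 1 + 1)) := by
      refine ⟨_, inferInstance, inferInstance, joinG H pent, JW W Finset.univ, jr 0, jr 2, s1,
        mem_JW_r.2 (Finset.mem_univ _), mem_JW_r.2 (Finset.mem_univ _),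
        fun h => absurd (jr_inj h) (by decide), fun h => n02 (jrr.1 h), ?_, LI.refl, ?_⟩
      · rw [← l0]; exact LI.refl
      · rw [s2, hl, lam_pent, pow_succ ((-1 / 4 : ℚ)) (m + 1)]
    have h4 := h2.symm.comp h3
    rw [zero_add] at h4
    exact ⟨_, _, _, h4⟩

/-- all even natural numbers are values of centrally symmetric spheres -/
theorem central_nat {m : ℕ} (hm : 1 ≤ m) (z : ℕ) :
    ∃ (N : ℕ) (T : Finset (Finset (Fin N))), (∀ i, IsFlagSphere (k i) (2 * m) T) ∧ Central T ∧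
      (-4) ^ m * omega T = 2 * z := by
  obtain ⟨m, rfl⟩ : ∃ r, m = r + 1 := ⟨m - 1, by omega⟩
  rcases z with _ | z
  · obtain ⟨μ, _, _, M, Y, τ, h1, h2⟩ := cross (k := k) (2 * m + 1)
    obtain ⟨s1, s2⟩ := Sp_join h1 (Sp_pair (k := k))
    obtain ⟨N, K, V, ρ, h4, h5, h6⟩ := to_fin s1 h2.susp
    refine ⟨N, cl K V, fun i => isFlagSphere_of h4.np (h4.hs i), central_of h5, ?_⟩
    rw [omega_cl, h6, s2, lam_pair (show (0 : Fin 2) ≠ 1 by decide) (fun h => h)]
    simp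
  · obtain ⟨μ, _, _, M, Y, τ, h1, h2⟩ := cross (k := k) (2 * m)
    obtain ⟨ν, C, V, h3⟩ := one_susp h1
    have key : RS k (2 * (m + 1)) (joinG M (⊥ : SimpleGraph (Fin 2))) (JW Y {0, 1})
        ((z + 1) * (-1 / 4) ^ (m + 1)) := by
      rcases h3.chain' z with h | h
      · exact h.rs
      · exact h.rs
    obtain ⟨N, T, h4, h5, h6⟩ := central_sphere h2.susp key
    refine ⟨N, T, h4, h5, ?_⟩
    have h7 := pent_val (m + 1)
    rw [h6]
    push_cast
    linear_combination (2 * (z + 1) : ℚ) * h7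

/-- if the inequality fails then all even numbers are values of centrally symmetric spheres -/
theorem central_all [Nonempty ι] {m N₀ : ℕ} {S : Finset (Finset (Fin N₀))}
    (hS : ∀ i, IsFlagSphere (k i) (2 * m) S) (hneg : (-1) ^ m * omega S < 0) (z : ℤ) :
    ∃ (N : ℕ) (T : Finset (Finset (Fin N))), (∀ i, IsFlagSphere (k i) (2 * m) T) ∧ Central T ∧
      (-4) ^ m * omega T = 2 * z := by
  obtain ⟨n, M, Y, τ, h1, h2⟩ := cross_fin (k := k) (2 * m - 1)
  obtain ⟨N, T, h3, h4, h5⟩ := central_sphere h2 (all_values h1 hS hneg z)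
  refine ⟨N, T, h3, h4, ?_⟩
  have h6 : (-4 : ℚ) ^ m ≠ 0 := by positivity
  rw [h5]
  field_simp
  ring

end

/-- the value of a centrally symmetric sphere is even -/
theorem central_even {F : Type} [Field F] {N m : ℕ} (hm : 1 ≤ m) {T : Finset (Finset (Fin N))}
    (h : IsFlagSphere F (2 * m) T) (hc : Central T) :
    ∃ z : ℤ, (-4) ^ m * omega T = 2 * z := by
  classical
  obtain ⟨σ, s1, s2⟩ := hc
  have hcl : cl (skel T) (vert T) = T := h.cl_eq
  have hcard : ∀ A ∈ T, A.card ≤ 2 * m := by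
    intro A hA
    rw [← hcl] at hA
    exact h.np.card_le hA
  have hemp : (∅ : Finset (Fin N)) ∈ T := by
    rw [← hcl]; exact empty_mem_cl
  have hsub : ∀ A ∈ T, ∀ v ∈ A, {v} ∈ T := by
    intro A hA v hv
    rw [← hcl] at hA ⊢
    exact cl_of_subset hA (Finset.singleton_subset_iff.2 hv)
  have hinj : ∀ A ∈ T, Set.InjOn σ A := by
    intro A hA a ha b hb hab
    rw [← s1 a (hsub A hA a ha), hab, s1 b (hsub A hA b hb)]
  have hcs : ∀ A ∈ T, (A.image σ).card = A.card := fun A hA =>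
    Finset.card_image_of_injOn (hinj A hA)
  have hss : ∀ A ∈ T, (A.image σ).image σ = A := by
    intro A hA
    rw [Finset.image_image]
    conv_rhs => rw [← Finset.image_id (s := A)]
    refine Finset.image_congr fun a ha => ?_
    exact s1 a (hsub A hA a ha)
  -- the integral terms
  let w : Finset (Fin N) → ℤ := fun A => (-1) ^ (m + A.card) * 2 ^ (2 * m - A.card)
  have hw : ∀ A ∈ T, (-4 : ℚ) ^ m * (-1 / 2) ^ A.card = w A := by
    intro A hA
    have h1 := hcard A hA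
    have h2 : (2 : ℚ) ^ (2 * m) = 2 ^ (2 * m - A.card) * 2 ^ A.card := by
      rw [← pow_add]; congr 1; omega
    have h3 : (2 : ℚ) ^ A.card ≠ 0 := by positivity
    simp only [w]
    push_cast
    rw [pow_add, div_pow, neg_pow (4 : ℚ), show (4 : ℚ) = 2 ^ 2 by norm_num, ← pow_mul, h2]
    field_simp
  have hsum : (-4 : ℚ) ^ m * omega T = ((∑ A ∈ T, w A : ℤ) : ℚ) := by
    have h1 : omega T = ∑ A ∈ T, (-1 / 2 : ℚ) ^ A.card := by
      conv_lhs => rw [← hcl]
      rw [omega_cl, lam, fe, hcl]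
    rw [h1, Finset.mul_sum, Int.cast_sum]
    exact Finset.sum_congr rfl fun A hA => hw A hA
  have hev : Even (∑ A ∈ T, w A) := by
    rw [← Finset.sum_erase_add _ _ hemp]
    refine Even.add ?_ ?_
    · have h1 : ((∑ A ∈ T.erase ∅, w A : ℤ) : ZMod 2) = 0 := by
        push_cast
        refine Finset.sum_involution (fun A _ => A.image σ) ?_ ?_ ?_ ?_
        · intro A hA
          have h2 := hcs A (Finset.mem_of_mem_erase hA)
          simp only [w]
          rw [h2]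
          exact CharTwo.add_self_eq_zero _
        · intro A hA _
          exact (s2 A (Finset.mem_of_mem_erase hA)).2
            (Finset.nonempty_iff_ne_empty.2 (Finset.ne_of_mem_erase hA))
        · intro A hA
          refine Finset.mem_erase.2 ⟨fun h0 => Finset.ne_of_mem_erase hA ?_,
            (s2 A (Finset.mem_of_mem_erase hA)).1⟩
          exact Finset.image_eq_empty.1 h0
        · intro A hA
          exact hss A (Finset.mem_of_mem_erase hA)
      exact ZMod.intCast_eq_zero_iff_even.1 h1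
    · simp only [w, Finset.card_empty]
      refine Even.mul_left ?_ _
      rw [Nat.sub_zero]
      exact even_two.pow_of_ne_zero (by omega)
  obtain ⟨z, hz⟩ := hev
  refine ⟨z, ?_⟩
  rw [hsum, hz]
  push_cast
  ring

end Pool.Agent.D0H84.CD
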